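import Pool.Agent.Results.MP_a4b8ee_gt.SmallUnion

/-!
# Totally paracompact Lindelöf spaces which are scattered unions of spaces with a strictly positive
measure are Menger

Let `X` be a regular Lindelöf totally paracompact space. A subset of `X` is good if it is contained
in a closed subspace which admits a perfect map onto a supported space `Y` (there are countably many
compact subsets of `Y` and a finite Borel measure on `Y` such that every nonempty open subset of `Y`
meets one of the compact sets or has positive measure), or in a continuous image of a perfect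
preimage of a product of a second countable space and a Lindelöf P-space. Suppose that every
nonempty closed subset of `X` has a nonempty relatively open subset which is covered by fewer than
`𝔟` good sets. Then `X` has the Menger property.

The idea. A clock on `Y` is a sequence of families `E n` of open sets such that a locally finite
family has only finitely many members in `E n`, and such that every nonempty open set `W` has an `n`
with: whenever `Y` is the increasing union of open sets `O k`, some `W ∩ O k` belongs to `E n`.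
Given covers `U n`, the open sets which for some `n` belong to `E n` and lie in the union of finitely many
members of `U n` form a basis, and a locally finite subcover selects finitely many members of each
`U n`. Measures and compact sets give clocks, and a clock on `Y` gives a clock on a minimal closed
subset of `X` which is mapped onto `Y`.
-/

set_option autoImplicit false

open Set Filter Topology TopologicalSpace MeasureTheory

open scoped ENNReal

namespace Pool.Agent.Results.MP_a4b8ee_gt.MeasureSupport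

universe u v

/-- `X` is totally paracompact: every basis has a locally finite subfamily covering `X`. -/
def TotallyParacompact (X : Type u) [TopologicalSpace X] : Prop :=
  ∀ B : Set (Set X), IsTopologicalBasis B →
    ∃ C : Set (Set X), C ⊆ B ∧ LocallyFinite (fun s : C => (s : Set X)) ∧ ⋃₀ C = univ

/-- `X` has the Menger property. -/
def Menger (X : Type u) [TopologicalSpace X] : Prop :=
  ∀ U : ℕ → Set (Set X), (∀ n, ∀ s ∈ U n, IsOpen s) → (∀ n, ⋃₀ U n = univ) →
    ∃ A : ℕ → Set (Set X), (∀ n, A n ⊆ U n ∧ (A n).Finite) ∧ (⋃ n, ⋃₀ A n) = univ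

/-- `Y` is supported: there are compact sets `K 0, K 1, …` in `Y` and a finite Borel measure `μ` on
`Y` such that every nonempty open subset of `Y` meets some `K n` or has positive measure. -/
def Supported (Y : Type u) [TopologicalSpace Y] : Prop :=
  ∃ K : ℕ → Set Y, (∀ n, IsCompact (K n)) ∧
    ∃ μ : @Measure Y (borel Y), @IsFiniteMeasure Y (borel Y) μ ∧
      ∀ O : Set Y, IsOpen O → O.Nonempty → (∃ n, (O ∩ K n).Nonempty) ∨ 0 < μ O

/-- The subset `F` of `X` (with the subspace topology) admits a perfect map onto a supported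
space. -/
def Tame {X : Type u} [TopologicalSpace X] (F : Set X) : Prop :=
  ∃ (Y : Type u) (_ : TopologicalSpace Y) (f : F → Y),
    IsProperMap f ∧ Function.Surjective f ∧ Supported Y

/-- The families `E n` are a clock on the closed set `F` of `X`. -/
def Clock {X : Type u} [TopologicalSpace X] (F : Set X) (E : ℕ → Set (Set X)) : Prop :=
  (∀ n, ∀ (ι : Type u) (v : ι → Set X), (∀ i, IsOpen (v i)) → LocallyFinite v →
    {i | v i ∈ E n}.Finite) ∧
  (∀ n, ∀ s t : Set X, IsOpen s → IsOpen t → s ⊆ t → s ∈ E n → t ∈ E n) ∧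
  (∀ W : Set X, IsOpen W → (W ∩ F).Nonempty → ∃ n, ∀ O : ℕ → Set X, (∀ k, IsOpen (O k)) →
    Monotone O → F ⊆ ⋃ k, O k → ∃ k, W ∩ O k ∈ E n)

/-- One member can be chosen from each of countably many increasing open covers of `F`. -/
def MS {X : Type u} [TopologicalSpace X] (F : Set X) : Prop :=
  ∀ V : ℕ → ℕ → Set X, (∀ m k, IsOpen (V m k)) → (∀ m, Monotone (V m)) →
    (∀ m, F ⊆ ⋃ k, V m k) → ∃ g : ℕ → ℕ, F ⊆ ⋃ m, V m (g m)

/-- The core lemma. -/
theorem core {X : Type u} [TopologicalSpace X] (hTP : TotallyParacompact X) {F : Set X}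
    (hF : IsClosed F) {E : ℕ → Set (Set X)} (hE : Clock F E) : MS F := by
  classical
  intro V hVo hVm hVc
  obtain ⟨hE1, hE2, hE3⟩ := hE
  let B : Set (Set X) := {b | IsOpen b ∧ (b ∩ F = ∅ ∨ ∃ m k, b ∈ E m ∧ b ⊆ V m k)}
  have hB : IsTopologicalBasis B := by
    refine isTopologicalBasis_of_isOpen_of_nhds (fun b hb => hb.1) ?_
    intro x W hxW hW
    by_cases hx : x ∈ F
    · obtain ⟨m, hm⟩ := hE3 W hW ⟨x, hxW, hx⟩
      obtain ⟨k₁, hk₁⟩ := hm (V m) (hVo m) (hVm m) (hVc m)
      obtain ⟨k₂, hk₂⟩ := mem_iUnion.1 (hVc m hx)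
      refine ⟨W ∩ V m (max k₁ k₂), ⟨hW.inter (hVo _ _), Or.inr ⟨m, max k₁ k₂, ?_, ?_⟩⟩,
        ⟨hxW, ?_⟩, inter_subset_left⟩
      · exact hE2 m _ _ (hW.inter (hVo _ _)) (hW.inter (hVo _ _))
          (inter_subset_inter_right _ (hVm m (le_max_left _ _))) hk₁
      · exact inter_subset_right
      · exact hVm m (le_max_right _ _) hk₂
    · refine ⟨W ∩ Fᶜ, ⟨hW.inter hF.isOpen_compl, Or.inl ?_⟩, ⟨hxW, hx⟩, inter_subset_left⟩
      ext y; simp
  obtain ⟨C, hCB, hCf, hCu⟩ := hTP B hB
  have hfin : ∀ m, {s : C | (s : Set X) ∈ E m}.Finite := fun m =>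
    hE1 m C (fun s => (s : Set X)) (fun s => (hCB s.2).1) hCf
  have hg : ∀ m, ∃ g : ℕ, ∀ s : C, (s : Set X) ∈ E m →
      (∃ k, (s : Set X) ⊆ V m k) → (s : Set X) ⊆ V m g := by
    intro m
    have : ∀ s : C, ∃ k₀ : ℕ, (∃ k, (s : Set X) ⊆ V m k) → (s : Set X) ⊆ V m k₀ := by
      intro s
      by_cases h : ∃ k, (s : Set X) ⊆ V m k
      · obtain ⟨k, hk⟩ := h
        exact ⟨k, fun _ => hk⟩
      · exact ⟨0, fun h' => absurd h' h⟩
    choose κ hκ using this
    obtain ⟨N, hN⟩ := ((hfin m).image κ).bddAbove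
    exact ⟨N, fun s hs hk => (hκ s hk).trans (hVm m (hN ⟨s, hs, rfl⟩))⟩
  choose g hg using hg
  refine ⟨g, fun x hx => ?_⟩
  have hxu : x ∈ ⋃₀ C := by rw [hCu]; exact mem_univ x
  obtain ⟨s, hsC, hxs⟩ := hxu
  rcases (hCB hsC).2 with h | ⟨m, k, h1, h2⟩
  · exact absurd (show x ∈ s ∩ F from ⟨hxs, hx⟩) (by rw [h]; exact notMem_empty x)
  · exact mem_iUnion.2 ⟨m, hg m ⟨s, hsC⟩ h1 ⟨k, h2⟩ hxs⟩

/-- A point-finite family of open sets has only finitely many members of measure more than `ε`. -/
theorem finite_measure_gt {Y : Type u} [TopologicalSpace Y] (μ : @Measure Y (borel Y))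
    (hμ : @IsFiniteMeasure Y (borel Y) μ) {ε : ℝ≥0∞} (hε : 0 < ε) {ι : Type u} (v : ι → Set Y)
    (hv : ∀ i, IsOpen (v i)) (hf : LocallyFinite v) : {i | ε < μ (v i)}.Finite := by
  classical
  letI : MeasurableSpace Y := borel Y
  haveI : BorelSpace Y := ⟨rfl⟩
  haveI := hμ
  by_contra hinf
  have hinf' : {i | ε < μ (v i)}.Infinite := hinf
  let a : ℕ ↪ {i | ε < μ (v i)} := hinf'.natEmbedding
  let T : ℕ → Set Y := fun m => ⋃ j : ℕ, v (a (m + j))
  have hT : ∀ m, MeasurableSet (T m) := fun m =>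
    (isOpen_iUnion fun j => hv _).measurableSet
  have hTa : Antitone T := by
    intro m n hmn x hx
    obtain ⟨j, hj⟩ := mem_iUnion.1 hx
    refine mem_iUnion.2 ⟨(n - m) + j, ?_⟩
    have : m + ((n - m) + j) = n + j := by omega
    rw [this]; exact hj
  have hTe : ⋂ m, T m = ∅ := by
    rw [eq_empty_iff_forall_notMem]
    intro x hx
    have hx' := mem_iInter.1 hx
    have hfx : {i | x ∈ v i}.Finite := hf.point_finite x
    have hfx2 : {j : ℕ | x ∈ v (a j)}.Finite := by
      refine Finite.of_finite_image (f := fun j => ((a j : {i | ε < μ (v i)}) : ι))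
        (hfx.subset ?_) ?_
      · rintro _ ⟨j, hj, rfl⟩; exact hj
      · intro j _ j' _ h
        exact a.injective (Subtype.ext h)
    obtain ⟨N, hN⟩ := hfx2.bddAbove
    obtain ⟨j, hj⟩ := mem_iUnion.1 (hx' (N + 1))
    have := hN (show N + 1 + j ∈ {j : ℕ | x ∈ v (a j)} from hj)
    omega
  have hlim := tendsto_measure_iInter_atTop (μ := μ) (fun m => (hT m).nullMeasurableSet) hTa
    ⟨0, measure_ne_top μ _⟩
  rw [hTe, measure_empty] at hlim
  have hge : ∀ m, ε ≤ μ (T m) := by
    intro m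
    have h1 : ε < μ (v (a m)) := (a m).2
    refine h1.le.trans (measure_mono ?_)
    intro x hx
    exact mem_iUnion.2 ⟨0, by simpa using hx⟩
  exact absurd (ge_of_tendsto' hlim hge) (not_le.2 hε)

/-- A supported space has a clock. -/
theorem clock_of_supported {Y : Type u} [TopologicalSpace Y] (h : Supported Y) :
    ∃ E, Clock (univ : Set Y) E := by
  classical
  letI : MeasurableSpace Y := borel Y
  haveI : BorelSpace Y := ⟨rfl⟩
  obtain ⟨K, hK, μ, hμ, hO⟩ := h
  refine ⟨fun n => {V | (V ∩ K n).Nonempty ∨ ((n : ℝ≥0∞) + 1)⁻¹ < μ V}, ?_, ?_, ?_⟩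
  · intro n ι v hv hf
    have h1 : {i | (v i ∩ K n).Nonempty}.Finite := hf.finite_nonempty_inter_compact (hK n)
    have h2 : {i | ((n : ℝ≥0∞) + 1)⁻¹ < μ (v i)}.Finite :=
      finite_measure_gt μ hμ (ENNReal.inv_pos.2 (by finiteness)) v hv hf
    refine (h1.union h2).subset ?_
    rintro i (hi | hi)
    · exact Or.inl hi
    · exact Or.inr hi
  · intro n s t _ _ hst hs
    rcases hs with hs | hs
    · exact Or.inl (hs.mono (inter_subset_inter_left _ hst))
    · exact Or.inr (hs.trans_le (measure_mono hst))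
  · intro W hW hWn
    rw [inter_univ] at hWn
    rcases hO W hW hWn with ⟨n, z, hzW, hzK⟩ | hpos
    · refine ⟨n, fun O hOo hOm hOc => ?_⟩
      obtain ⟨k, hk⟩ := mem_iUnion.1 (hOc (mem_univ z))
      exact ⟨k, Or.inl ⟨z, ⟨hzW, hk⟩, hzK⟩⟩
    · obtain ⟨n, hn⟩ : ∃ n : ℕ, ((n : ℝ≥0∞) + 1)⁻¹ < μ W := by
        obtain ⟨n, hn⟩ := ENNReal.exists_inv_nat_lt hpos.ne'
        refine ⟨n, lt_of_le_of_lt ?_ hn⟩
        exact ENNReal.inv_le_inv.2 le_self_add
      refine ⟨n, fun O hOo hOm hOc => ?_⟩
      have hmono : Monotone (fun k => W ∩ O k) := fun i j hij =>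
        inter_subset_inter_right _ (hOm hij)
      have hU : ⋃ k, W ∩ O k = W := by
        rw [← inter_iUnion]
        exact inter_eq_left.2 ((subset_univ W).trans hOc)
      have hlim := tendsto_measure_iUnion_atTop (μ := μ) hmono
      rw [hU] at hlim
      obtain ⟨k, hk⟩ := (hlim.eventually (lt_mem_nhds hn)).exists
      exact ⟨k, Or.inr hk⟩

/-- A proper surjection restricts to an irreducible surjection on a closed subset. -/
theorem exists_irreducible {X Y : Type u} [TopologicalSpace X] [TopologicalSpace Y] {f : X → Y}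
    (hf : IsProperMap f) (hs : Function.Surjective f) :
    ∃ C : Set X, IsClosed C ∧ f '' C = univ ∧
      ∀ C' : Set X, IsClosed C' → C' ⊆ C → f '' C' = univ → C ⊆ C' := by
  obtain ⟨C, hC⟩ := zorn_superset {C : Set X | IsClosed C ∧ f '' C = univ} (by
    intro c hc hch
    rcases c.eq_empty_or_nonempty with he | hne
    · refine ⟨univ, ⟨isClosed_univ, ?_⟩, ?_⟩
      · rw [image_univ]; exact hs.range_eq
      · intro s hs'; rw [he] at hs'; exact hs'.elim
    · refine ⟨⋂₀ c, ⟨isClosed_sInter fun s hs' => (hc hs').1, ?_⟩, fun s hs' => sInter_subset_of_mem hs'⟩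
      rw [eq_univ_iff_forall]
      intro y
      haveI : Nonempty c := hne.to_subtype
      have hcomp : IsCompact (f ⁻¹' {y}) :=
        (isProperMap_iff_isClosedMap_and_compact_fibers.1 hf).2.2 y
      by_contra hy
      obtain ⟨i, hi⟩ := hcomp.elim_directed_family_closed (fun i : c => (i : Set X))
        (fun i => (hc i.2).1) (by
          rw [eq_empty_iff_forall_notMem]
          rintro x ⟨hx1, hx2⟩
          refine hy ⟨x, ?_, hx1⟩
          rw [sInter_eq_iInter]; exact hx2)
        (by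
          intro a b
          rcases hch.total a.2 b.2 with h | h
          · exact ⟨a, subset_rfl, h⟩
          · exact ⟨b, h, subset_rfl⟩)
      have hyi : y ∈ f '' (i : Set X) := by rw [(hc i.2).2]; trivial
      obtain ⟨x, hx, hxy⟩ := hyi
      have : x ∈ f ⁻¹' {y} ∩ (i : Set X) := ⟨hxy, hx⟩
      rw [hi] at this
      exact this)
  refine ⟨C, hC.prop.1, hC.prop.2, fun C' h1 h2 h3 => hC.le_of_le ⟨h1, h3⟩ h2⟩

/-- The small image of `V` relative to `C`. -/
def small {X Y : Type u} (f : X → Y) (C V : Set X) : Set Y := (f '' (C \ V))ᶜ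

theorem mem_small {X Y : Type u} {f : X → Y} {C V : Set X} {y : Y} :
    y ∈ small f C V ↔ ∀ x ∈ C, f x = y → x ∈ V := by
  constructor
  · intro h x hx hxy
    by_contra hn
    exact h ⟨x, ⟨hx, hn⟩, hxy⟩
  · rintro h ⟨x, ⟨hx, hn⟩, hxy⟩
    exact hn (h x hx hxy)

theorem isOpen_small {X Y : Type u} [TopologicalSpace X] [TopologicalSpace Y] {f : X → Y}
    (hf : IsProperMap f) {C V : Set X} (hC : IsClosed C) (hV : IsOpen V) :
    IsOpen (small f C V) :=
  (hf.isClosedMap _ (hC.sdiff hV)).isOpen_compl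

/-- The small images of an increasing open cover of `C` form an open cover. -/
theorem small_cover {X Y : Type u} [TopologicalSpace X] [TopologicalSpace Y] {f : X → Y}
    (hf : IsProperMap f) {C : Set X} (hC : IsClosed C) {O : ℕ → Set X} (hO : ∀ k, IsOpen (O k))
    (hOm : Monotone O) (hOc : C ⊆ ⋃ k, O k) : (univ : Set Y) ⊆ ⋃ k, small f C (O k) := by
  intro y _
  have hcomp : IsCompact (f ⁻¹' {y} ∩ C) :=
    ((isProperMap_iff_isClosedMap_and_compact_fibers.1 hf).2.2 y).inter_right hC
  obtain ⟨k, hk⟩ := hcomp.elim_directed_cover O hO (fun x hx => hOc hx.2) hOm.directed_le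
  exact mem_iUnion.2 ⟨k, mem_small.2 fun x hx hxy => hk ⟨hxy, hx⟩⟩

/-- A clock pulls back along an irreducible proper map. -/
theorem clock_pullback {X Y : Type u} [TopologicalSpace X] [TopologicalSpace Y] {f : X → Y}
    (hf : IsProperMap f) {C : Set X} (hC : IsClosed C) (hCs : f '' C = univ)
    (hCi : ∀ C' : Set X, IsClosed C' → C' ⊆ C → f '' C' = univ → C ⊆ C')
    {E : ℕ → Set (Set Y)} (hE : Clock (univ : Set Y) E) :
    Clock C (fun n => {V | small f C V ∈ E n}) := by
  classical
  obtain ⟨hE1, hE2, hE3⟩ := hE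
  refine ⟨?_, ?_, ?_⟩
  · intro n ι v hv hlf
    refine hE1 n ι (fun i => small f C (v i)) (fun i => isOpen_small hf hC (hv i)) ?_
    intro y
    have hcomp : IsCompact (f ⁻¹' {y}) :=
      (isProperMap_iff_isClosedMap_and_compact_fibers.1 hf).2.2 y
    -- an open neighbourhood of the fibre meeting only finitely many members
    have h1 : ∀ x ∈ f ⁻¹' {y}, ∃ G : Set X, IsOpen G ∧ x ∈ G ∧ {i | (v i ∩ G).Nonempty}.Finite := by
      intro x _
      obtain ⟨t, ht, htf⟩ := hlf x
      obtain ⟨G, hGt, hG, hxG⟩ := mem_nhds_iff.1 ht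
      exact ⟨G, hG, hxG, htf.subset fun i hi => hi.mono (inter_subset_inter_right _ hGt)⟩
    choose! G hG1 hG2 hG3 using h1
    obtain ⟨t, htf, ht⟩ := hcomp.elim_nhds_subcover G (fun x hx => (hG1 x hx).mem_nhds (hG2 x hx))
    let O : Set X := ⋃ x ∈ t, G x
    have hO : IsOpen O := isOpen_biUnion fun x hx => hG1 x (htf x hx)
    have hOf : {i | (v i ∩ O).Nonempty}.Finite := by
      refine (t.finite_toSet.biUnion fun x hx => hG3 x (htf x hx)).subset ?_
      rintro i ⟨z, hz1, hz2⟩
      obtain ⟨x, hx, hz3⟩ := mem_iUnion₂.1 hz2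
      exact mem_iUnion₂.2 ⟨x, hx, z, hz1, hz3⟩
    refine ⟨small f C O, (isOpen_small hf hC hO).mem_nhds ?_, ?_⟩
    · exact mem_small.2 fun x _ hxy => ht hxy
    · refine hOf.subset ?_
      rintro i ⟨y', hy1, hy2⟩
      have hy' : y' ∈ f '' C := by rw [hCs]; trivial
      obtain ⟨x, hx, hxy⟩ := hy'
      exact ⟨x, mem_small.1 hy1 x hx hxy, mem_small.1 hy2 x hx hxy⟩
  · intro n s t hs ht hst h
    refine hE2 n _ _ (isOpen_small hf hC hs) (isOpen_small hf hC ht) ?_ h
    intro y hy
    exact mem_small.2 fun x hx hxy => hst (mem_small.1 hy x hx hxy)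
  · intro W hW hWC
    have hne : (small f C W).Nonempty := by
      by_contra hn
      rw [not_nonempty_iff_eq_empty] at hn
      have h1 : f '' (C \ W) = univ := by
        rw [small, compl_empty_iff] at hn; exact hn
      have h2 := hCi (C \ W) (hC.sdiff hW) diff_subset h1
      obtain ⟨x, hxW, hxC⟩ := hWC
      exact (h2 hxC).2 hxW
    obtain ⟨n, hn⟩ := hE3 (small f C W) (isOpen_small hf hC hW) (by rwa [inter_univ])
    refine ⟨n, fun O hO hOm hOc => ?_⟩
    obtain ⟨k, hk⟩ := hn (fun k => small f C (O k)) (fun k => isOpen_small hf hC (hO k))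
      (fun i j hij y hy => mem_small.2 fun x hx hxy => hOm hij (mem_small.1 hy x hx hxy))
      (small_cover hf hC hO hOm hOc)
    refine ⟨k, ?_⟩
    have : small f C (W ∩ O k) = small f C W ∩ small f C (O k) := by
      ext y
      simp only [mem_inter_iff, mem_small]
      constructor
      · intro h
        exact ⟨fun x hx hxy => (h x hx hxy).1, fun x hx hxy => (h x hx hxy).2⟩
      · rintro ⟨h1, h2⟩ x hx hxy
        exact ⟨h1 x hx hxy, h2 x hx hxy⟩
    show small f C (W ∩ O k) ∈ E n
    rw [this]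
    exact hk

/-- A totally paracompact space with a perfect map onto a supported space. -/
theorem ms_of_proper {X Y : Type u} [TopologicalSpace X] [TopologicalSpace Y]
    (hTP : TotallyParacompact X) {f : X → Y} (hf : IsProperMap f) (hs : Function.Surjective f)
    (hY : Supported Y) : MS (univ : Set X) := by
  obtain ⟨E, hE⟩ := clock_of_supported hY
  obtain ⟨C, hC, hCs, hCi⟩ := exists_irreducible hf hs
  have hMS := core hTP hC (clock_pullback hf hC hCs hCi hE)
  intro V hVo hVm hVc
  have hcl : IsClosed (univ : Set X) := isClosed_univ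
  -- the selection in `Y`
  obtain ⟨g, hg⟩ := hMS (fun m k => f ⁻¹' small f univ (V m k))
    (fun m k => (isOpen_small hf hcl (hVo m k)).preimage hf.continuous)
    (fun m i j hij x hx => mem_small.2 fun x' hx' hxy => hVm m hij (mem_small.1 hx x' hx' hxy))
    (fun m x _ => by
      have := small_cover hf hcl (hVo m) (hVm m) (hVc m) (mem_univ (f x))
      obtain ⟨k, hk⟩ := mem_iUnion.1 this
      exact mem_iUnion.2 ⟨k, hk⟩)
  refine ⟨g, fun x _ => ?_⟩
  have hx : f x ∈ f '' C := by rw [hCs]; trivial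
  obtain ⟨c, hc, hcx⟩ := hx
  obtain ⟨m, hm⟩ := mem_iUnion.1 (hg hc)
  refine mem_iUnion.2 ⟨m, ?_⟩
  exact mem_small.1 (show f c ∈ small f univ (V m (g m)) from hm) x (mem_univ x) hcx.symm

/-- Closed subspaces of totally paracompact spaces are totally paracompact. -/
theorem tp_closed {X : Type u} [TopologicalSpace X] (hTP : TotallyParacompact X) {F : Set X}
    (hF : IsClosed F) : TotallyParacompact F := by
  classical
  intro B hB
  let B' : Set (Set X) := {b | IsOpen b ∧ (b ∩ F = ∅ ∨ (Subtype.val ⁻¹' b : Set F) ∈ B)}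
  have hB' : IsTopologicalBasis B' := by
    refine isTopologicalBasis_of_isOpen_of_nhds (fun b hb => hb.1) ?_
    intro x W hxW hW
    by_cases hx : x ∈ F
    · obtain ⟨b, hbB, hxb, hbW⟩ := hB.exists_subset_of_mem_open
        (show (⟨x, hx⟩ : F) ∈ (Subtype.val ⁻¹' W : Set F) from hxW)
        (hW.preimage continuous_subtype_val)
      obtain ⟨O, hO, hOb⟩ := isOpen_induced_iff.1 (hB.isOpen hbB)
      refine ⟨O ∩ W, ⟨hO.inter hW, Or.inr ?_⟩, ⟨?_, hxW⟩, inter_subset_right⟩
      · have : (Subtype.val ⁻¹' (O ∩ W) : Set F) = b := by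
          rw [preimage_inter, hOb]
          exact inter_eq_left.2 hbW
        rw [this]; exact hbB
      · have : (⟨x, hx⟩ : F) ∈ (Subtype.val ⁻¹' O : Set F) := by rw [hOb]; exact hxb
        exact this
    · refine ⟨W ∩ Fᶜ, ⟨hW.inter hF.isOpen_compl, Or.inl ?_⟩, ⟨hxW, hx⟩, inter_subset_left⟩
      ext y; simp
  obtain ⟨C, hCB, hCf, hCu⟩ := hTP B' hB'
  let D : Set (Set F) := {d | d ∈ B ∧ ∃ s ∈ C, (Subtype.val ⁻¹' s : Set F) = d}
  refine ⟨D, fun d hd => hd.1, ?_, ?_⟩
  · have hsel : ∀ d : D, ∃ s : C, (Subtype.val ⁻¹' (s : Set X) : Set F) = d := by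
      rintro ⟨d, hd, s, hs, hsd⟩
      exact ⟨⟨s, hs⟩, hsd⟩
    choose σ hσ using hsel
    have hσi : Function.Injective σ := by
      intro a b hab
      apply Subtype.ext
      rw [← hσ a, ← hσ b, hab]
    have h1 := (hCf.comp_injective hσi).preimage_continuous
      (continuous_subtype_val : Continuous (Subtype.val : F → X))
    have h2 : (fun d : D => (d : Set F)) =
        fun d : D => (Subtype.val ⁻¹' ((σ d : C) : Set X) : Set F) := by
      funext d; exact (hσ d).symm
    rw [h2]
    exact h1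
  · rw [eq_univ_iff_forall]
    rintro ⟨x, hx⟩
    have hxu : x ∈ ⋃₀ C := by rw [hCu]; exact mem_univ x
    obtain ⟨s, hsC, hxs⟩ := hxu
    rcases (hCB hsC).2 with h | h
    · exact absurd (show x ∈ s ∩ F from ⟨hxs, hx⟩) (by rw [h]; exact notMem_empty x)
    · exact ⟨_, ⟨h, s, hsC, rfl⟩, hxs⟩

/-- A closed tame subset of a totally paracompact space. -/
theorem ms_of_tame {X : Type u} [TopologicalSpace X] (hTP : TotallyParacompact X) {F : Set X}
    (hF : IsClosed F) (hT : Tame F) : MS F := by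
  obtain ⟨Y, _, f, hf, hs, hY⟩ := hT
  have h1 := ms_of_proper (tp_closed hTP hF) hf hs hY
  intro V hVo hVm hVc
  obtain ⟨g, hg⟩ := h1 (fun m k => Subtype.val ⁻¹' V m k)
    (fun m k => (hVo m k).preimage continuous_subtype_val)
    (fun m i j hij => preimage_mono (hVm m hij))
    (fun m x _ => by
      obtain ⟨k, hk⟩ := mem_iUnion.1 (hVc m x.2)
      exact mem_iUnion.2 ⟨k, hk⟩)
  refine ⟨g, fun x hx => ?_⟩
  obtain ⟨m, hm⟩ := mem_iUnion.1 (hg (mem_univ (⟨x, hx⟩ : F)))
  exact mem_iUnion.2 ⟨m, hm⟩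

/-- `A` is contained in a continuous image of a space `Z` which has a perfect map into a product
`M × P` of a second countable Hausdorff space `M` and a Lindelöf Hausdorff space `P` in which
countable intersections of open sets are open. -/
def SigmaP {X : Type u} [TopologicalSpace X] (A : Set X) : Prop :=
  ∃ (M P Z : Type u) (_ : TopologicalSpace M) (_ : TopologicalSpace P) (_ : TopologicalSpace Z)
    (ρ : Z → M × P) (π : Z → X),
      T2Space M ∧ SecondCountableTopology M ∧ T2Space P ∧ LindelofSpace P ∧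
      (∀ O : ℕ → Set P, (∀ n, IsOpen (O n)) → IsOpen (⋂ n, O n)) ∧
      IsProperMap ρ ∧ Continuous π ∧ A ⊆ range π

/-- Good subsets of `X`. -/
def Good {X : Type u} [TopologicalSpace X] (A : Set X) : Prop :=
  (∃ T : Set X, IsClosed T ∧ A ⊆ T ∧ Tame T) ∨ SigmaP A

/-- One member can be chosen from each of countably many increasing open covers of `X` so that the
chosen sets cover `A`. -/
def MSX {X : Type u} [TopologicalSpace X] (A : Set X) : Prop :=
  ∀ V : ℕ → ℕ → Set X, (∀ m k, IsOpen (V m k)) → (∀ m, Monotone (V m)) →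
    (∀ m, ⋃ k, V m k = univ) → ∃ g : ℕ → ℕ, A ⊆ ⋃ m, V m (g m)

theorem MSX.mono {X : Type u} [TopologicalSpace X] {A A' : Set X} (h : MSX A) (hs : A' ⊆ A) :
    MSX A' := by
  intro V hVo hVm hVc
  obtain ⟨g, hg⟩ := h V hVo hVm hVc
  exact ⟨g, hs.trans hg⟩

theorem msx_of_good {X : Type u} [TopologicalSpace X] [RegularSpace X] [LindelofSpace X]
    (hTP : TotallyParacompact X) {A : Set X} (hA : Good A) : MSX A := by
  rcases hA with ⟨T, hT, hAT, hTT⟩ | hA
  · intro V hVo hVm hVc
    obtain ⟨g, hg⟩ := ms_of_tame hTP hT hTT V hVo hVm (fun m => by rw [hVc m]; exact subset_univ _)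
    exact ⟨g, hAT.trans hg⟩
  · intro V hVo hVm hVc
    exact SmallUnion.tame_cover hTP (Or.inr hA) V hVo hVm hVc

/-- Unions of fewer than `𝔟` sets. -/
theorem MSX.iUnion {X : Type u} [TopologicalSpace X] {ι : Type v}
    (hι : ∀ f : ι → ℕ → ℕ, ∃ g : ℕ → ℕ, ∀ i, ∀ᶠ n in atTop, f i n ≤ g n)
    {A : ι → Set X} (h : ∀ i, MSX (A i)) : MSX (⋃ i, A i) := by
  intro V hVo hVm hVc
  have h1 : ∀ i n, ∃ g : ℕ → ℕ, A i ⊆ ⋃ m, V (n + m) (g m) := fun i n =>
    h i (fun m k => V (n + m) k) (fun m k => hVo _ _) (fun m => hVm _) (fun m => hVc _)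
  choose g hg using h1
  obtain ⟨G, hG⟩ := hι (fun i m => (Finset.range (m + 1)).sup fun n => g i n (m - n))
  refine ⟨G, fun x hx => ?_⟩
  obtain ⟨i, hi⟩ := mem_iUnion.1 hx
  obtain ⟨n, hn⟩ := eventually_atTop.1 (hG i)
  obtain ⟨m, hm⟩ := mem_iUnion.1 (hg i n hi)
  refine mem_iUnion.2 ⟨n + m, hVm _ ?_ hm⟩
  refine le_trans ?_ (hn (n + m) (Nat.le_add_right _ _))
  have h2 := Finset.le_sup (f := fun k => g i k (n + m - k))
    (Finset.mem_range.2 (show n < n + m + 1 by omega))
  simpa using h2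

/-- In a Lindelöf space, a closed set all of whose points have open neighbourhoods with `MSX`. -/
theorem msx_of_cover {X : Type u} [TopologicalSpace X] [LindelofSpace X] {P : Set X}
    (hP : IsClosed P) (h : ∀ x ∈ P, ∃ O : Set X, IsOpen O ∧ x ∈ O ∧ MSX O) : MSX P := by
  classical
  choose! O hO1 hO2 hO3 using h
  have hL : IsLindelof P := hP.isLindelof
  obtain ⟨t, htc, htP, ht⟩ := hL.elim_nhds_subcover O (fun x hx => (hO1 x hx).mem_nhds (hO2 x hx))
  haveI : Countable t := htc.to_subtype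
  have h1 : MSX (⋃ i : t, O i) := MSX.iUnion (SmallUnion.countable_index t)
    (fun i => hO3 i (htP _ i.2))
  refine h1.mono fun x hx => ?_
  obtain ⟨y, hy, hxy⟩ := mem_iUnion₂.1 (ht hx)
  exact mem_iUnion.2 ⟨⟨y, hy⟩, hxy⟩

/-- The main theorem in terms of increasing covers. -/
theorem main {X : Type u} [TopologicalSpace X] [RegularSpace X] [LindelofSpace X]
    (H : ∀ F : Set X, IsClosed F → F.Nonempty →
      ∃ W : Set X, IsOpen W ∧ (W ∩ F).Nonempty ∧ MSX (W ∩ F)) :
    MSX (univ : Set X) := by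
  classical
  let G : Set X := ⋃₀ {O | IsOpen O ∧ MSX O}
  have hG : IsOpen G := isOpen_sUnion fun O hO => hO.1
  have hGx : ∀ x ∈ G, ∃ O : Set X, IsOpen O ∧ x ∈ O ∧ MSX O := by
    rintro x ⟨O, ⟨h1, h2⟩, hx⟩
    exact ⟨O, h1, hx, h2⟩
  have hGu : Gᶜ = ∅ := by
    by_contra hne
    obtain ⟨W, hW, ⟨x, hxW, hxG⟩, hMS⟩ := H Gᶜ hG.isClosed_compl (nonempty_iff_ne_empty.2 hne)
    obtain ⟨t, ht, htc, htW⟩ := exists_mem_nhds_isClosed_subset (hW.mem_nhds hxW)
    refine hxG ⟨interior t, ⟨isOpen_interior, ?_⟩, mem_interior_iff_mem_nhds.2 ht⟩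
    refine MSX.mono (A := t) ?_ interior_subset
    intro V hVo hVm hVc
    obtain ⟨g₁, hg₁⟩ := hMS (fun m => V (2 * m)) (fun m => hVo _) (fun m => hVm _)
      (fun m => hVc _)
    let Q : Set X := ⋃ m, V (2 * m) (g₁ m)
    have hQ : IsOpen Q := isOpen_iUnion fun m => hVo _ _
    have h2 : MSX (t \ Q) := by
      refine msx_of_cover (htc.sdiff hQ) fun y hy => ?_
      refine hGx y ?_
      by_contra hyG
      exact hy.2 (hg₁ ⟨htW hy.1, hyG⟩)
    obtain ⟨g₂, hg₂⟩ := h2 (fun m => V (2 * m + 1)) (fun m => hVo _) (fun m => hVm _)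
      (fun m => hVc _)
    refine ⟨fun n => if n % 2 = 0 then g₁ (n / 2) else g₂ (n / 2), fun y hy => ?_⟩
    by_cases hyQ : y ∈ Q
    · obtain ⟨m, hm⟩ := mem_iUnion.1 hyQ
      refine mem_iUnion.2 ⟨2 * m, ?_⟩
      have e1 : (2 * m) % 2 = 0 := by omega
      have e2 : (2 * m) / 2 = m := by omega
      simp only [e1, e2, if_true]
      exact hm
    · obtain ⟨m, hm⟩ := mem_iUnion.1 (hg₂ ⟨hy, hyQ⟩)
      refine mem_iUnion.2 ⟨2 * m + 1, ?_⟩
      have e1 : ¬ (2 * m + 1) % 2 = 0 := by omega
      have e2 : (2 * m + 1) / 2 = m := by omega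
      simp only [e1, e2, if_false]
      exact hm
  refine msx_of_cover isClosed_univ fun x _ => hGx x ?_
  by_contra hx
  have : x ∈ Gᶜ := hx
  rw [hGu] at this
  exact this

/-- **Totally paracompact spaces and measures.** Let `X` be a regular Lindelöf totally paracompact
space such that every nonempty closed subset `F` of `X` has a nonempty relatively open subset
`W ∩ F` which is covered by fewer than `𝔟` good sets (every `ι`-indexed family of functions
`ℕ → ℕ` is bounded modulo finite). Then `X` is Menger. -/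
theorem result {X : Type u} [TopologicalSpace X] [RegularSpace X] [LindelofSpace X]
    (hTP : TotallyParacompact X)
    (H : ∀ F : Set X, IsClosed F → F.Nonempty →
      ∃ W : Set X, IsOpen W ∧ (W ∩ F).Nonempty ∧
        ∃ (ι : Type v) (A : ι → Set X),
          (∀ f : ι → ℕ → ℕ, ∃ g : ℕ → ℕ, ∀ i, ∀ᶠ n in atTop, f i n ≤ g n) ∧
          (∀ i, Good (A i)) ∧ W ∩ F ⊆ ⋃ i, A i) :
    Menger X := by
  have h1 : MSX (univ : Set X) := main fun F hF hFn => by
    obtain ⟨W, hW, hWF, ι, A, hι, hA, hc⟩ := H F hF hFn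
    exact ⟨W, hW, hWF, (MSX.iUnion hι fun i => msx_of_good hTP (hA i)).mono hc⟩
  refine SmallUnion.reduce fun V hVo hVm hVc => ?_
  obtain ⟨g, hg⟩ := h1 V hVo hVm hVc
  exact ⟨g, eq_univ_of_univ_subset hg⟩

/-- Special case: a regular Lindelöf totally paracompact space with a finite Borel measure which is
positive on all nonempty open sets is Menger. -/
theorem menger_of_measure {X : Type u} [TopologicalSpace X] [RegularSpace X] [LindelofSpace X]
    (hTP : TotallyParacompact X) (μ : @Measure X (borel X)) (hμ : @IsFiniteMeasure X (borel X) μ)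
    (hpos : ∀ O : Set X, IsOpen O → O.Nonempty → 0 < μ O) : Menger X := by
  refine result.{u, 0} hTP fun F hF hFn => ⟨univ, isOpen_univ, by simpa using hFn, Unit,
    fun _ => univ, SmallUnion.countable_index Unit, fun _ => Or.inl ⟨univ, isClosed_univ,
      Subset.rfl, X, inferInstance, fun x => x.1, ?_, ?_, ?_⟩, fun x _ => mem_iUnion.2 ⟨(), trivial⟩⟩
  · exact (Homeomorph.Set.univ X).isProperMap
  · exact fun x => ⟨⟨x, trivial⟩, rfl⟩
  · exact ⟨fun _ => ∅, fun _ => isCompact_empty, μ, hμ, fun O hO hOn => Or.inr (hpos O hO hOn)⟩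

end Pool.Agent.Results.MP_a4b8ee_gt.MeasureSupport
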